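import Pool.Agent.H67.BB.Sums

set_option autoImplicit false

/-!
Two elements of the set of the moved primes of `Pool.Agent.H67.BB.template` (for the Bohr sets `TT`) which are beyond
a bound do not satisfy an affine relation `a p + c = b q` with `c ≠ 0`.
-/

namespace Pool.Agent.H21

open Filter Topology Pool.Agent.H67.BB

/-- for every nonzero integer `c` and all `a, b`, no two elements of a small Bohr set of `√2` satisfy
`a x + c = b y` -/
lemma bohr_no_affine (a b : ℕ) (c : ℤ) (hc : c ≠ 0) : ∃ η : ℝ, 0 < η ∧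
    ∀ x y : ℕ, x ∈ bohr (√2) η → y ∈ bohr (√2) η → (a : ℤ) * x + c ≠ b * y := by
  obtain ⟨δ, hδ, hδ2⟩ : ∃ δ : ℝ, 0 < δ ∧ ∀ n : ℤ, δ ≤ |√2 * c - n| := by
    have hirr : Irrational (√2 * c) := irrational_sqrt_two.mul_intCast hc
    refine ⟨|√2 * c - round (√2 * c)|, ?_, fun n => round_le _ _⟩
    rw [abs_pos]
    intro h
    apply hirr
    exact ⟨round (√2 * c), by push_cast; linarith⟩
  have hab : (0 : ℝ) < a + b + 1 := by positivity
  refine ⟨δ / (a + b + 1), by positivity, ?_⟩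
  intro x y hx hy h
  have hx' : Int.fract (√2 * x) < δ / (a + b + 1) := hx
  have hy' : Int.fract (√2 * y) < δ / (a + b + 1) := hy
  have hx0 := Int.fract_nonneg (√2 * x)
  have hy0 := Int.fract_nonneg (√2 * y)
  have hR : (a : ℝ) * x + c = b * y := by exact_mod_cast h
  have e1 : √2 * x = ⌊√2 * x⌋ + Int.fract (√2 * x) := (Int.floor_add_fract _).symm
  have e2 : √2 * y = ⌊√2 * y⌋ + Int.fract (√2 * y) := (Int.floor_add_fract _).symm
  have e3 : √2 * c - ((b : ℤ) * ⌊√2 * y⌋ - (a : ℤ) * ⌊√2 * x⌋ : ℤ) =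
      b * Int.fract (√2 * y) - a * Int.fract (√2 * x) := by
    push_cast
    have : √2 * c = b * (√2 * y) - a * (√2 * x) := by linear_combination √2 * hR
    rw [this]
    linear_combination (b : ℝ) * e2 - (a : ℝ) * e1
  have h1 := hδ2 ((b : ℤ) * ⌊√2 * y⌋ - (a : ℤ) * ⌊√2 * x⌋ : ℤ)
  rw [e3] at h1
  have ha0 : (0 : ℝ) ≤ a := by positivity
  have hb0 : (0 : ℝ) ≤ b := by positivity
  have h2 : |b * Int.fract (√2 * y) - a * Int.fract (√2 * x)| ≤
      (a + b) * (δ / (a + b + 1)) := by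
    rw [abs_le]
    constructor <;> nlinarith [mul_nonneg ha0 hx0, mul_nonneg hb0 hy0, mul_le_mul_of_nonneg_left hx'.le ha0,
      mul_le_mul_of_nonneg_left hy'.le hb0]
  have h3 : (a + b) * (δ / (a + b + 1)) < δ := by
    rw [mul_div_assoc', div_lt_iff₀ hab]
    nlinarith
  linarith

variable {f : ℕ → ℝ} {φ X : ℕ → ℕ}

/-- For `a, b ≥ 1` and `c ≠ 0` only finitely many pairs `(x, y)` of elements of the set of the moved primes satisfy
`a x + c = b y`. -/
lemma affine_finite (O : Out TT f φ X) (a b : ℕ) (c : ℤ) (ha : 1 ≤ a) (hb : 1 ≤ b) (hc : c ≠ 0) :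
    {z : ℕ × ℕ | z.1 ∈ PP φ ∧ z.2 ∈ PP φ ∧ (a : ℤ) * z.1 + c = b * z.2}.Finite := by
  obtain ⟨η, hη, h⟩ := bohr_no_affine a b c hc
  obtain ⟨j, hj⟩ := exists_nat_one_div_lt hη
  refine ((Set.finite_Iic (b * X j + a * X j + c.natAbs)).prod (Set.finite_Iic (b * X j + a * X j + c.natAbs))).subset ?_
  rintro ⟨x, y⟩ ⟨hx, hy, hxy⟩
  simp only at hx hy hxy
  have hlt : x < X j ∨ y < X j := by
    by_contra hcon
    push Not at hcon
    exact h x y (bohr_mono hj.le (O.mem_of_ge hx hcon.1)) (bohr_mono hj.le (O.mem_of_ge hy hcon.2)) hxy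
  have hc1 : c ≤ (c.natAbs : ℤ) := Int.le_natAbs
  have hc2 : -(c.natAbs : ℤ) ≤ c := by omega
  have hxa : (x : ℤ) ≤ a * x := by nlinarith
  have hyb : (y : ℤ) ≤ b * y := by nlinarith
  have hXa : (X j : ℤ) ≤ a * X j := by nlinarith
  have hXb : (X j : ℤ) ≤ b * X j := by nlinarith
  have hX0 : (0 : ℤ) ≤ X j := by positivity
  constructor
  · show x ≤ b * X j + a * X j + c.natAbs
    rcases hlt with hl | hl
    · zify
      have : (x : ℤ) < X j := by exact_mod_cast hl
      rw [← Int.natCast_natAbs] 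
      nlinarith
    · zify
      have : (y : ℤ) < X j := by exact_mod_cast hl
      have h5 : (b : ℤ) * y ≤ b * X j := by nlinarith
      rw [← Int.natCast_natAbs] 
      nlinarith
  · show y ≤ b * X j + a * X j + c.natAbs
    rcases hlt with hl | hl
    · zify
      have : (x : ℤ) < X j := by exact_mod_cast hl
      have h5 : (a : ℤ) * x ≤ a * X j := by nlinarith
      rw [← Int.natCast_natAbs] 
      nlinarith
    · zify
      have : (y : ℤ) < X j := by exact_mod_cast hl
      rw [← Int.natCast_natAbs] 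
      nlinarith

end Pool.Agent.H21
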